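import Pool.Agent.Helper51.SDL.Goals
import Pool.Agent.Helper51.REC.Asm
import Pool.Agent.Helper70.PW.LPRM

/-!
# Project SD (MP_fc6b1e_nt), packet SDL-CNTN: the first inequality
-/

set_option autoImplicit false

namespace Pool.Agent.Helper60.SDL.CNTN

open NumberField Module IsDedekindDomain
open Pool.Agent.Helper51.RP Pool.Agent.Helper51.REC Pool.Agent.Helper16.SD Pool.Agent.Helper51.SDL
open Pool.Agent.Helper42.RD (ordv_mul ordv_eq_zero_iff)

theorem fx_dvd {P : Type} (n : ℕ) (hn : 0 < n) (π : Equiv.Perm P) (w : P)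
    (h : (π ^ n) w = w) : fx n π w ∣ n := by
  classical
  have key : ∀ i : ℕ, (π ^ i) w = w ↔ Function.minimalPeriod π w ∣ i := by
    intro i
    rw [← Function.isPeriodicPt_iff_minimalPeriod_dvd]
    unfold Function.IsPeriodicPt Function.IsFixedPt
    rw [Equiv.Perm.iterate_eq_pow]
  obtain ⟨q, hq⟩ := (key n).1 h
  have hd : 0 < Function.minimalPeriod π w := by
    rcases Nat.eq_zero_or_pos (Function.minimalPeriod π w) with h0 | h0
    · rw [h0, zero_mul] at hq; omega
    · exact h0
  have h2 : fx n π w = q := by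
    unfold fx
    rw [show ((Finset.range n).filter fun i => (π ^ i) w = w) =
      (Finset.range q).image (fun j => Function.minimalPeriod π w * j) from ?_,
      Finset.card_image_of_injective, Finset.card_range]
    · intro i j hij
      exact Nat.eq_of_mul_eq_mul_left hd hij
    · ext i
      rw [Finset.mem_filter, Finset.mem_image, Finset.mem_range, key]
      constructor
      · rintro ⟨hi, j, rfl⟩
        refine ⟨j, ?_, rfl⟩
        rw [Finset.mem_range]
        rw [hq] at hi
        exact lt_of_mul_lt_mul_left hi (Nat.zero_le _)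
      · rintro ⟨j, hj, rfl⟩
        rw [Finset.mem_range] at hj
        refine ⟨?_, dvd_mul_right _ _⟩
        rw [hq]
        exact Nat.mul_lt_mul_of_pos_left hj hd
  rw [h2]
  exact ⟨_, by rw [mul_comm]; exact hq⟩

/-- the divisor outside `T` -/
noncomputable def dv {M : Type} [Field M] [NumberField M] (T : Set (HeightOneSpectrum (𝓞 M)))
    (v : Mˣ) : PF T →₀ ℤ :=
  Finsupp.ofSupportFinite (fun w => ordv w.1 (v : M))
    ((Pool.Agent.Helper33.REC.finite_ordv v).preimage Subtype.val_injective.injOn)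

theorem dv_apply {M : Type} [Field M] [NumberField M] (T : Set (HeightOneSpectrum (𝓞 M)))
    (v : Mˣ) (w : PF T) : dv T v w = ordv w.1 (v : M) := rfl

theorem t (h1 : S_CNTA) (h2 : S_HER) (h3 : S_VEX) (h4 : S_FIN) (h5 : S_RNK) (h6 : S_PRI) :
    Pool.Agent.Helper51.SDL.S_CNTN := by
  classical
  intro p hp F L _ _ _ _ _ _ hcx k hdeg hcyc S hne hSp hunr
  have hpp : p.Prime := Fact.out
  have hn : 0 < p ^ k := pow_pos hpp.pos k
  have hfd : FiniteDimensional F L := FiniteDimensional.of_finrank_pos (by rw [hdeg]; exact hn)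
  have hfin : Finite (L ≃ₐ[F] L) := inferInstance
  obtain ⟨σ, hσ⟩ := IsCyclic.exists_generator (α := L ≃ₐ[F] L)
  have hgen : ∀ g : L ≃ₐ[F] L, ∃ i : ℕ, g = σ ^ i := by
    intro g
    obtain ⟨i, hi⟩ := (mem_powers_iff_mem_zpowers).2 (hσ g)
    exact ⟨i, hi.symm⟩
  have hcard : Nat.card (L ≃ₐ[F] L) = p ^ k := by rw [IsGalois.card_aut_eq_finrank, hdeg]
  have hσn : σ ^ (p ^ k) = 1 := by rw [← hcard]; exact pow_card_eq_one'
  obtain ⟨π, b, hOrb, hab, hord, hfx⟩ := h6 F L (p ^ k) σ hdeg hgen S hunr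
  obtain ⟨V, s, M, hs, hV1, hV2, hV3⟩ := h3 p F L (p ^ k) σ hdeg hgen S hne hSp
  -- the primes above `S`
  have hup : ∀ w ∈ upS L S, w.valuation L (p : L) < 1 := by
    rintro w ⟨W, hW, ha⟩
    obtain ⟨e, he0, he⟩ := Pool.Agent.Helper70.PW.val_above ha
    have h := he (p : F)
    rw [map_natCast] at h
    rw [h]
    exact pow_lt_one₀ zero_le (hSp W hW) he0
  -- the divisor map
  let φ : V →* Multiplicative (PF (upS L S) →₀ ℤ) :=
    MonoidHom.mk' (fun v => Multiplicative.ofAdd (dv (upS L S) (v : Lˣ))) (by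
      intro a c
      rw [← ofAdd_add]
      congr 1
      ext w
      rw [Finsupp.add_apply, dv_apply, dv_apply, dv_apply]
      exact ordv_mul w.1 (a : Lˣ).ne_zero (c : Lˣ).ne_zero)
  have hφ : ∀ (v : V) (w : PF (upS L S)), (φ v).toAdd w = ordv w.1 ((v : Lˣ) : L) :=
    fun v w => rfl
  have hφs : ∀ (v : V) (w : PF (upS L S)), (φ (s v)).toAdd (π w) = (φ v).toAdd w := by
    intro v w
    rw [hφ, hφ, hs, hord]
  have hφ1 : ∀ v : V, φ v = 1 ↔ ∀ w : PF (upS L S), (φ v).toAdd w = 0 := by
    intro v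
    constructor
    · intro h w
      rw [h]
      rfl
    · intro h
      apply Multiplicative.toAdd.injective
      ext w
      rw [h w]
      rfl
  have hker : ∀ v : V, φ v = 1 ↔ ∀ w : HeightOneSpectrum (𝓞 L),
      w.valuation L ((v : Lˣ) : L) = 1 := by
    intro v
    rw [hφ1]
    constructor
    · intro h w
      by_cases hw : w ∈ upS L S
      · exact hV3 v v.2 w hw
      · exact (ordv_eq_zero_iff w (v : Lˣ).ne_zero).1 (h ⟨w, hw⟩)
    · intro h w
      exact (ordv_eq_zero_iff w.1 (v : Lˣ).ne_zero).2 (h w.1)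
  have hsk : ∀ v : V, φ (s v) = 1 ↔ φ v = 1 := by
    intro v
    rw [hφ1, hφ1]
    constructor
    · intro h w
      rw [← hφs]
      exact h _
    · intro h w
      have h7 := hφs v (π.symm w)
      rw [Equiv.apply_symm_apply] at h7
      rw [h7]
      exact h _
  -- the units
  let E : Subgroup Lˣ :=
    { carrier := {u | u ∈ V ∧ ∀ w : HeightOneSpectrum (𝓞 L), w.valuation L (u : L) = 1}
      mul_mem' := fun {a c} ha hc => ⟨V.mul_mem ha.1 hc.1, fun w => by
        rw [Units.val_mul, map_mul, ha.2, hc.2, one_mul]⟩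
      one_mem' := ⟨V.one_mem, fun w => by rw [Units.val_one, map_one]⟩
      inv_mem' := fun {a} ha => ⟨V.inv_mem ha.1, fun w => by
        rw [Units.val_inv_eq_inv_val, map_inv₀, ha.2, inv_one]⟩ }
  have hE : ∀ v : V, ((v : Lˣ) ∈ E) ↔ φ v = 1 := by
    intro v
    rw [hker]
    exact ⟨fun h => h.2, fun h => ⟨v.2, h⟩⟩
  let inc : E → V := fun u => ⟨u.1, u.2.1⟩
  have hincE : ∀ u : E, φ (inc u) = 1 := fun u => (hE (inc u)).1 u.2
  let t : E ≃* E :=
    { toFun := fun u => ⟨(s (inc u) : V), (hE _).2 ((hsk _).2 (hincE u))⟩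
      invFun := fun u => ⟨(s.symm (inc u) : V), (hE _).2 ((hsk _).1 (by
        rw [MulEquiv.apply_symm_apply]; exact hincE u))⟩
      left_inv := fun u => by
        apply Subtype.ext
        change ((s.symm (s (inc u)) : V) : Lˣ) = u
        rw [MulEquiv.symm_apply_apply]
      right_inv := fun u => by
        apply Subtype.ext
        change ((s (s.symm (inc u)) : V) : Lˣ) = u
        rw [MulEquiv.apply_symm_apply]
      map_mul' := fun u v => by
        apply Subtype.ext
        change ((s (inc u * inc v) : V) : Lˣ) = _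
        rw [map_mul]
        rfl }
  let j : E →* V := Subgroup.inclusion (fun u hu => hu.1)
  have hinj : Function.Injective j := Subgroup.inclusion_injective _
  have hjr : ∀ v : V, φ v = 1 ↔ v ∈ j.range := by
    intro v
    rw [← hE]
    constructor
    · intro h
      exact ⟨⟨v, h⟩, rfl⟩
    · rintro ⟨e, rfl⟩
      exact e.2
  have hjt : ∀ e, j (t e) = s (j e) := fun e => rfl
  obtain ⟨hFG, htn, hrk⟩ := h5 p F L hcx k σ hdeg hgen E M (by
      intro u hu hcong
      refine ⟨hV2 u (fun w hw => hcong w (hup w hw)), hu⟩)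
    (fun u hu => hu.2) t (fun u => hs (inc u))
  obtain ⟨hH0, hH1⟩ := h2 p k (finrank ℚ F / 2) E t htn hrk
  have hφr := h4 p L (upS L S) hup V M hV2 φ hφ
  -- powers of `s`
  have hsi : ∀ (i : ℕ) (v : V), ((((s ^ i : MulAut V) v : V) : Lˣ) : L) =
      (σ ^ i) ((v : Lˣ) : L) := by
    intro i
    induction i with
    | zero => intro v; rfl
    | succ i ih =>
      intro v
      have e1 : (s ^ (i + 1) : MulAut V) v = s ((s ^ i : MulAut V) v) := by
        rw [pow_succ']
        rfl
      have e2 : (σ ^ (i + 1)) ((v : Lˣ) : L) = σ ((σ ^ i) ((v : Lˣ) : L)) := by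
        rw [pow_succ']
        rfl
      rw [e1, hs, ih, e2]
  have hsn : ∀ v : V, (s ^ (p ^ k) : MulAut V) v = v := by
    intro v
    apply Subtype.ext
    apply Units.ext
    rw [hsi, hσn]
    rfl
  -- the divisors of the elements of `F`
  let ψ : V → PF S →₀ ℤ := fun v =>
    if h : ∃ y : Fˣ, algebraMap F L (y : F) = ((v : Lˣ) : L) then dv S h.choose else 0
  have hψ : ∀ (v : V) (y : Fˣ), algebraMap F L (y : F) = ((v : Lˣ) : L) → ψ v = dv S y := by
    intro v y hy
    have hex : ∃ y : Fˣ, algebraMap F L (y : F) = ((v : Lˣ) : L) := ⟨y, hy⟩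
    have e1 : ψ v = dv S hex.choose := dif_pos hex
    have e2 : hex.choose = y := by
      apply Units.ext
      apply (algebraMap F L).injective
      rw [hex.choose_spec, hy]
    rw [e1, e2]
  have hfix : ∀ v : V, s v = v → ∃ y : Fˣ, algebraMap F L (y : F) = ((v : Lˣ) : L) := by
    intro v hv
    have hv1 : σ ((v : Lˣ) : L) = ((v : Lˣ) : L) := by rw [← hs, hv]
    have hv2 : ∀ i : ℕ, (σ ^ i) ((v : Lˣ) : L) = ((v : Lˣ) : L) := by
      intro i
      induction i with
      | zero => rfl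
      | succ i ih =>
        rw [pow_succ']
        change σ ((σ ^ i) ((v : Lˣ) : L)) = _
        rw [ih, hv1]
    obtain ⟨y, hy⟩ := (IsGalois.mem_range_algebraMap_iff_fixed ((v : Lˣ) : L)).2 (by
      intro g
      obtain ⟨i, rfl⟩ := hgen g
      exact hv2 i)
    have hy0 : y ≠ 0 := by
      rintro rfl
      rw [map_zero] at hy
      exact (v : Lˣ).ne_zero hy.symm
    exact ⟨Units.mk0 y hy0, hy⟩
  have hψφ : ∀ v : V, s v = v → ∀ w : PF (upS L S), (φ v).toAdd w = ψ v (b w) := by
    intro v hv w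
    obtain ⟨y, hy⟩ := hfix v hv
    rw [hψ v y hy, hφ, dv_apply, ← hy]
    exact hunr (b w).1 (b w).2 w.1 (hab w) y
  obtain ⟨hI0, hIn⟩ := h1 (p ^ k) (PF (upS L S)) (PF S) V E π b s t j φ ψ hOrb hsn hφs hinj
    hjr hjt hV1 hφr hH0 hH1 hψφ
  refine ⟨M, _, hI0, hIn, ?_, ?_, ?_⟩
  · -- multiples of `p ^ k`
    intro d
    induction d using Finsupp.induction_linear with
    | zero => rw [smul_zero]; exact AddSubgroup.zero_mem _
    | add f g hf hg => rw [smul_add]; exact AddSubgroup.add_mem _ hf hg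
    | single W c =>
      obtain ⟨w, rfl⟩ := hOrb.surj W
      obtain ⟨q, hq⟩ := fx_dvd (p ^ k) hn π w (hOrb.pow w)
      have e1 : (p ^ k : ℕ) • Finsupp.single (b w) c =
          (c * q) • Finsupp.single (b w) (fx (p ^ k) π w : ℤ) := by
        rw [Finsupp.smul_single, Finsupp.smul_single]
        congr 1
        rw [nsmul_eq_mul, smul_eq_mul]
        have h8 : ((p ^ k : ℕ) : ℤ) = (fx (p ^ k) π w : ℤ) * (q : ℤ) := by
          exact_mod_cast hq
        rw [h8]
        ring
      rw [e1]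
      have e2 : Finsupp.single (b w) (fx (p ^ k) π w : ℤ) ∈
          HH (p ^ k) π b (fun v : fixG s => ψ v) :=
        AddSubgroup.subset_closure (Or.inl ⟨w, rfl⟩)
      exact AddSubgroup.zsmul_mem _ e2 _
  · -- principal divisors
    intro v d hcong hd
    let v' : Lˣ := Units.map (algebraMap F L : F →* L) v
    have hv' : ((v' : Lˣ) : L) = algebraMap F L (v : F) := rfl
    have hv'V : v' ∈ V := by
      apply hV2
      rintro w ⟨W, hW, ha⟩
      obtain ⟨e, he0, he⟩ := Pool.Agent.Helper70.PW.val_above ha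
      have e1 : ((v' : Lˣ) : L) - 1 = algebraMap F L ((v : F) - 1) := by
        rw [map_sub, map_one, hv']
      have e2 := he (p : F)
      rw [map_natCast] at e2
      rw [e1, he, e2, ← pow_mul, mul_comm, pow_mul]
      exact pow_le_pow_left₀ zero_le (hcong W hW) e
    have hfixv : s ⟨v', hv'V⟩ = ⟨v', hv'V⟩ := by
      apply Subtype.ext
      apply Units.ext
      rw [hs]
      exact σ.commutes _
    have e3 : d = ψ ⟨v', hv'V⟩ := by
      rw [hψ ⟨v', hv'V⟩ v hv'.symm]
      ext W
      rw [hd W, dv_apply]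
    rw [e3]
    exact AddSubgroup.subset_closure (Or.inr ⟨⟨⟨v', hv'V⟩, hfixv⟩, rfl⟩)
  · -- primes of degree one
    rintro W ⟨w, ha, hnorm⟩
    have hw : w ∉ upS L S := by
      rintro ⟨W', hW', ha'⟩
      apply W.2
      have e1 : W.1 = W' := HeightOneSpectrum.ext (ha.symm.trans ha')
      rw [e1]
      exact hW'
    have hbW : b ⟨w, hw⟩ = W := by
      apply Subtype.ext
      exact HeightOneSpectrum.ext ((hab ⟨w, hw⟩).symm.trans ha)
    have h9 := hfx ⟨w, hw⟩ (by rw [hbW]; exact hnorm)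
    refine AddSubgroup.subset_closure (Or.inl ⟨⟨w, hw⟩, ?_⟩)
    rw [h9, hbW]
    rfl

end Pool.Agent.Helper60.SDL.CNTN
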